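import Pool.Agent.Helper65.NW.Lc
import Pool.Agent.Helper65.HCS.Defs

/-!
# Networks of processors: circuits and cellular automata as networks (definitions)

In both cases a cell is named by a word `z` of the length of `p`, and it is the cell number `bval z`.
-/

namespace Pool.Agent.Helper65.NW

open Pool.Agent.Helper65.LinSpace Pool.Agent.Helper78.Mpc Pool.Agent.Helper28.Ram Finset
open Pool.Agent.Helper65.HC
open Pool.Agent.Helper81.Sus2 (Decomp)

/-! ### The parts of a word which begins with a header -/

/-- The number `n`. -/
noncomputable def hn (u : List Bool) : ℕ := bval (pr u)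

/-- The time `t`. -/
noncomputable def ht (u : List Bool) : ℕ := bval (pr (re u))

/-- The network `p`. -/
noncomputable def hp (u : List Bool) : List Bool := pr (re (re u))

/-- The cell `z`. -/
noncomputable def hz (u : List Bool) : List Bool := pr (re (re (re u)))

/-- The rest. -/
noncomputable def hr (u : List Bool) : List Bool := re (re (re (re u)))

theorem hn_hd (n t : ℕ) (p z u : List Bool) : hn (hd n t p z ++ u) = n := by
  rw [hn, hd, List.append_assoc, pr_sd, Pool.Agent.Helper31.TMS.bval_bits]

theorem ht_hd (n t : ℕ) (p z u : List Bool) : ht (hd n t p z ++ u) = t := by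
  rw [ht, hd, List.append_assoc, List.append_assoc, re_sd, pr_sd,
    Pool.Agent.Helper31.TMS.bval_bits]

theorem hp_hd (n t : ℕ) (p z u : List Bool) : hp (hd n t p z ++ u) = p := by
  rw [hp, hd, List.append_assoc, List.append_assoc, List.append_assoc, re_sd, re_sd, pr_sd]

theorem hz_hd (n t : ℕ) (p z u : List Bool) : hz (hd n t p z ++ u) = z := by
  rw [hz, hd, List.append_assoc, List.append_assoc, List.append_assoc, re_sd, re_sd, re_sd, pr_sd]

theorem hr_hd (n t : ℕ) (p z u : List Bool) : hr (hd n t p z ++ u) = u := by
  rw [hr, hd, List.append_assoc, List.append_assoc, List.append_assoc, re_sd, re_sd, re_sd, re_sd]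

theorem NLS.hn {f : List Bool → List Bool} (hf : WLS f) : NLS fun w => hn (f w) := hf.pr.val

theorem NLS.ht {f : List Bool → List Bool} (hf : WLS f) : NLS fun w => ht (f w) := hf.re.pr.val

theorem WLS.hp {f : List Bool → List Bool} (hf : WLS f) : WLS fun w => hp (f w) := hf.re.re.pr

theorem WLS.hz {f : List Bool → List Bool} (hf : WLS f) : WLS fun w => hz (f w) :=
  hf.re.re.re.pr

theorem WLS.hr {f : List Bool → List Bool} (hf : WLS f) : WLS fun w => hr (f w) :=
  hf.re.re.re.re

/-! ### Circuits

The network `p` is the circuit with the gates `0, …, bval p`. At the time `2 u + 1` the gates `i ≥ u` have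
read the values of the gates before `u`, and at the time `2 u + 2` the gate `u` has computed its value. -/

/-- The cells which are read: the cell itself, and in the step `2 u + 2` also the gate `u`. -/
noncomputable def cnb (u : List Bool) : List Bool :=
  open Classical in
  if ht u % 2 = 0 ∧ ht u ≠ 0 ∧ hr u ≠ [] then pad (hp u).length (ht u / 2 - 1).bits else hz u

/-- The address: the gate `i` is the letter number `i` of the input word, or the letter number `i - n` of
the additional word. -/
noncomputable def cadr (u : List Bool) : List Bool :=
  (if bval (hz u) < hn u then bval (hz u) else bval (hz u) - hn u).bits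

/-- The value of a gate with a flag which tells whether it begins with `1`. -/
def flg (v : List Bool) : List Bool := (if v[0]? = some true then [true] else [false]) ++ v

/-- The new content. -/
noncomputable def cnext (A : Circ) (x : List Bool) : List Bool :=
  if bval (hp (re (re x))) < bval (hz (re (re x))) then []
  else if ht (re (re x)) = 0 then
    (if bval (hz (re (re x))) < hn (re (re x)) then [false, true] ++ pr x
      else if pr (re x) = [] then [false, false] else [false, true] ++ pr (re x))
  else if ht (re (re x)) % 2 = 1 then
    (if bval (hz (re (re x))) = ht (re (re x)) / 2 then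
      (if (pr (hr (re (re x))))[1]? = some true then
        [false, false] ++ (pr (hr (re (re x)))).drop 2
      else flg (A.out (sd (hn (re (re x))).bits ++ (sd (bval (hz (re (re x)))).bits ++
        (pr (hr (re (re x)))).drop 2))))
    else pr (hr (re (re x))))
  else
    (if bval (hz (re (re x))) < ht (re (re x)) / 2 ∨ pr (hr (re (re x))) = [] then []
    else if (pr (hr (re (re x))))[1]? = some true then pr (hr (re (re x)))
    else [false, false] ++ A.step (sd (hn (re (re x))).bits ++
      (sd (bval (hz (re (re x)))).bits ++ (sd (ht (re (re x)) / 2 - 1).bits ++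
        (sd ((pr (hr (re (re x)))).drop 2) ++ (pr (re (hr (re (re x))))).drop 1)))))

/-- The content of the cell number `i` at the time `τ` in the network with the gates `0, …, P`. -/
def cc (A : Circ) (w y : List Bool) (P τ i : ℕ) : List Bool :=
  if τ = 0 ∨ P < i ∨ i < (τ - 1) / 2 then []
  else if τ % 2 = 0 ∧ i = (τ - 1) / 2 then flg (A.val w y i)
  else match (w ++ y)[i]? with
    | some b => [false, true, b]
    | none => [false, false] ++ A.scan w.length i (A.vals w y i) ((τ - 1) / 2)

/-- The network of a circuit. -/
structure IsCirc (A : Circ) (N : Net) : Prop where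
  deg : N.deg = 2
  nb : N.nb = cnb
  addr : N.addr = cadr
  next : N.next = cnext A

/-- The address for the decompressor of the network; its states are `0 ⟨n⟩ ⟨t⟩ ⟨p⟩ ⟨z⟩` at the start and
`0 ⟨σ⟩` for the states `σ` of the decompressor of the circuit. -/
noncomputable def eadr (E : Decomp) (σ : List Bool) : List Bool :=
  open Classical in
  if re (σ.drop 1) = [] then E.addr (pr (σ.drop 1)) else cadr (σ.drop 1)

/-- The next state of the decompressor of the network. -/
noncomputable def enext (E : Decomp) (x : List Bool) : List Bool :=
  open Classical in
  if re ((pr x).drop 1) = [] then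
    (if (E.next (sd (pr ((pr x).drop 1)) ++ re x))[0]? = some true ∧
        (E.next (sd (pr ((pr x).drop 1)) ++ re x))[1]? = some true then
      [true, true, false, false] ++ (E.next (sd (pr ((pr x).drop 1)) ++ re x)).drop 2
    else [false] ++ sd (E.next (sd (pr ((pr x).drop 1)) ++ re x)))
  else if bval (hp ((pr x).drop 1)) < bval (hz ((pr x).drop 1)) ∨
      bval (hz ((pr x).drop 1)) < (ht ((pr x).drop 1) - 1) / 2 then [true, true]
  else if bval (hz ((pr x).drop 1)) < hn ((pr x).drop 1) then
    [true, true, false, true] ++ pr (re x)
  else if pr (re (re x)) = [] then [false] ++ sd ([false] ++ (bval (hz ((pr x).drop 1))).bits)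
  else [true, true, false, true] ++ pr (re (re x))

/-- The decompressor of the network of a circuit. -/
structure IsDec (E E' : Decomp) : Prop where
  addr : E'.addr = eadr E
  next : E'.next = enext E

/-! ### Cellular automata

Only the networks `p = 0 … 0` are used, of the length `D b`. The digits of the number of a cell in base
`2 ^ b` are its coordinates, modulo `2 ^ b`. The network stops at the time `t` with `2 (t + 1) ≥ 2 ^ b`. At
the time `t + 1` the contents of the cells are the states of the cellular automaton at the time `t`. -/

/-- The code of a state; the first letter tells whether it accepts. -/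
noncomputable def sc {D : ℕ} (A : CA D) (q : A.State) : List Bool :=
  haveI := A.finState
  open Classical in
  [decide (q ∈ A.accept)] ++ (Finite.equivFin A.State q : ℕ).bits

/-- The displacement number `i`. -/
def dl (D i : ℕ) : Fin D → Fin 3 := fun j => ⟨dig 3 i j % 3, Nat.mod_lt _ (by norm_num)⟩

/-- The code of the states of the neighbours. -/
noncomputable def cw {D : ℕ} (A : CA D) (g : (Fin D → Fin 3) → A.State) : List Bool :=
  (List.range (3 ^ D)).flatMap fun i => sd (sc A (g (dl D i)))

/-- The `i`-th neighbour. -/
noncomputable def anb (D : ℕ) (u : List Bool) : List Bool :=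
  pad (hp u).length (tab (2 ^ ((hp u).length / D)) D fun j =>
    (dig (2 ^ ((hp u).length / D)) (bval (hz u)) j + dig 3 (bval (hr u)) j +
      2 ^ ((hp u).length / D) - 1) % 2 ^ ((hp u).length / D)).bits

/-- The network is not stopped. -/
def Alive (D : ℕ) (u : List Bool) : Prop :=
  D * ((hp u).length / D) = (hp u).length ∧ bval (hp u) = 0 ∧
    2 * (ht u + 1) < 2 ^ ((hp u).length / D)

/-- The new content. -/
noncomputable def anext {D : ℕ} (A : CA D) (x : List Bool) : List Bool :=
  open Classical in
  if Alive D (re (re x)) then
    (if ht (re (re x)) = 0 then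
      (if 2 * bval (hz (re (re x))) < 2 ^ ((hp (re (re x))).length / D) then
        sc A (A.init (pr x)[0]? (pr (re x))[0]?)
      else sc A (A.init none none))
    else if h : ∃ g, hr (re (re x)) = cw A g then sc A (A.rule (Classical.choose h)) else [])
  else []

/-- The name of the cell `v` in the network of length `D b`. -/
def nm {D : ℕ} (b : ℕ) (v : Fin D → ℤ) : List Bool :=
  pad (D * b) (tab (2 ^ b) D fun j => if h : j < D then (v ⟨j, h⟩ % 2 ^ b).toNat else 0).bits

/-- The network of a cellular automaton. -/
structure IsCA {D : ℕ} (A : CA D) (N : Net) : Prop where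
  deg : N.deg = 3 ^ D
  nb : N.nb = anb D
  addr : N.addr = fun u => hz u
  next : N.next = anext A

end Pool.Agent.Helper65.NW
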