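import Pool.Agent.Helper65.NW.Emb

/-!
# Networks of processors: circuits and cellular automata as networks (statements of the parts)

Every statement comes with its proof in words. The toolkit for functions on words in linear space is
in `NW/Lc.lean` (`NLS`, `WLS`, `PLS`, `LC`), the definitions are in `NW/Emb.lean`.
-/

namespace Pool.Agent.Helper65.NW

open Pool.Agent.Helper65.LinSpace Pool.Agent.Helper78.Mpc Pool.Agent.Helper28.Ram Finset
open Pool.Agent.Helper65.HC
open Pool.Agent.Helper81.Sus2 (Decomp)

/-! ### Circuits -/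

/-- CLIN. All functions are computed in linear space: `cnb`, `cadr` are `WLS` (`WLS.ite`, `WLS.padd`,
`NLS.map2`, `PLS`), the other ones by `LC.ite`, `LC.append`, `LC.sdc`, `LC.drop`, `LC.letter_eq`, `LC.comp`
(`cnext`, `enext` apply the given functions only to words which are computed in linear space from
`x`). `IsCirc`, `IsDec` are then satisfied by the structures with these functions. -/
def CLIN_stmt : Prop := (∀ A : Circ, ∃ N : Net, IsCirc A N) ∧ ∀ E : Decomp, ∃ E' : Decomp, IsDec E E'

/-- CVAL. The contents of the cells, by induction on `τ`. `τ = 0` is clear. Let `P = bval p`, `i = bval z`. The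
view of the step `τ` is `hd n τ p z ++ (sd c₀ ++ sd c₁)` with `c₀ = val τ z` and `c₁ = val τ (inp 1)`
(`Nat.bits 0 = []`, `Nat.bits 1 = [true]`, `hn_hd` … `hr_hd`, `pr_sd`, `re_sd`, `pr_sd'`). Step `0 → 1`: the letter
is `(w ++ y)[i]?` (`List.getElem?_append`), and `scan … 0 = []`. Step `2 u + 1 → 2 u + 2`: only `i = u` changes; if
the gate is a letter `b` its value is `[false, b]`, `flg [false, b] = [false, false, b]`; otherwise
`A.val w y u = A.out (sd n.bits ++ (sd u.bits ++ scan u))` (unfold `Circ.val`, `Circ.gate`). Step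
`2 u + 2 → 2 u + 3`, for `i ≤ u` the result is empty; for `u < i ≤ P` the cell `pad |p| u.bits` has the length of `p`
(`u < 2 ^ |p|`, `length_pad`, `Mpc.length_bits`), its value is `u` (`bval_pad`), so `c₁ = flg (A.val w y u)` and
`drop 1` of it is `A.val w y u = A.vals w y i u` (`Pool.Agent.Helper72.HC.vals_eq`). -/
def CVAL_stmt : Prop := ∀ (A : Circ) (N : Net), IsCirc A N → ∀ w y p z : List Bool,
    z.length = p.length → ∀ τ, N.val w y p τ z = cc A w y (bval p) τ (bval z)

/-- CCONE. Cones of circuits. By induction on `k`, for all `t ≥ k` and `z` with `|z| = |p|`: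
`cone n p k t z ⊆ {z} ∪ (fun u => pad |p| u.bits) '' {u | t ≤ 2 u + 2 + k ∧ 2 u + 2 < t}`; the first step back
from the time `t ≥ 1` leads to `z` or, if `t - 1 = 2 u + 2`, to `pad |p| u.bits` (or again to `z` if this word
is too long). The set of these `u` has at most `k` elements (it is contained in the interval from
`(t - k - 2) / 2` …, or inject `u` to `2 u + 2 - (t - k) < k`). -/
def CCONE_stmt : Prop := ∀ (A : Circ) (N : Net), IsCirc A N → ∀ (n : ℕ) (p : List Bool) (k t : ℕ)
    (z : List Bool), k ≤ t → z.length = p.length → (N.cone n p k t z).ncard ≤ k + 1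

/-- CSHORT (may assume CVAL). Descriptions. The same word `D` works. Let `z` be a cell, `i = bval z`, `p = r.bits`,
so `bval p = r`. The start state is `false :: hd n (2 u + 1) p z`. If `i > r` or `i < u`, the next state is
`[true, true]`, and the content `cc … (2 u + 1) i` is empty. Otherwise the letter which is read is
`(w ++ y)[i]?`; if it is `b`, the next state is `[true, true, false, true, b]`, and the content is
`[false, true, b]`. Otherwise the next state is `false :: sd (false :: i.bits)`, `|w ++ y| ≤ i`, and `E` says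
`v = scan i u` for `i.bits` by hypothesis: take the least `T` such that the state of `E` begins with `1` (then
it is `1 1 v`, since the states do not change after `T`); by induction on `τ < T` the state of `E'` at the time
`1 + τ` is `false :: sd (E.run … τ)`, `re (sd …) = []`, and at the time `1 + T` it is
`[true, true, false, false] ++ v`. Note that `re (hd …) ≠ []`. Lengths: `length_sd`, `Mpc.length_bits`; the
address of the first step is `i.bits` or `(i - n).bits`, of length at most `|p|`. -/
def CSHORT_stmt : Prop := ∀ (A : Circ) (N : Net), IsCirc A N → ∀ E E' : Decomp, IsDec E E' →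
    ∀ (w y : List Bool) (r a a' m u : ℕ), u ≤ r → Pool.Agent.Helper65.HCS.Short A E w y a m r u →
    2 * a + 2 ≤ a' →
    2 * (w.length.bits.length + (2 * u + 1).bits.length + 2 * r.bits.length) + 5 ≤ a' →
    N.Short E' w y r.bits a' m (2 * u + 1)

/-- CWTH (may assume the statements above). Soundness: `N.AcceptsAt w y p τ` means that `cc … τ (bval p)`
begins with `1`, which is only possible if it is `flg (A.val w y i)` with `i = bval p`, and the value begins
with `1`. For the second part let `r`, `s`, `a`, `x` be given; `1 ≤ s` since the value of the gate `r` is not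
empty. `l = log₂ n + 1`, `l' = log₂ l + 1`, `N' = n + 1`. Take `p = r.bits` (`|p| ≤ a`), the time `2 r + 2`,
`s' = s + 3`, `a' = 6 a + 2 l + 9`, `x' = 2 x + 2`, `B = ⌊C₁ N' / (s' l l')⌋`, `V = B + 1`, where `C₁ = 4 |C| + 1`;
`B ≥ 1` as `s' l l' ≤ 4 s l ^ 2 ≤ C₁ N'`. The lengths of contents: the three cases of `cc`, with `Circ.Fits`.
The cones: CCONE, `k ≤ B`. The condition on intervals: if there is no short time strictly between `t` and
`t'` then by CSHORT there is no short `u` strictly between `T = t / 2` and `T' = min (t' / 2) r`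
(`t < 2 u + 1 < t'`), so `T' ≤ T + x` if `T ≤ T'`, and `t' ≤ 2 T' + 2 ≤ t + 2 x + 2`; if `T' < T` then `T' = r` and
`t' ≤ 2 r + 2 ≤ 2 T ≤ t`. The inequalities: `(B + 1) s' l l' ≤ 2 B s' l l' ≤ 2 C₁ N'`;
`(2 x + 2) s' l ^ 2 l' ^ 2 ≤ C₂ N' ^ 2` as `l' ^ 2 ≤ 4 l` and `x s l ^ 3 ≤ C N' ^ 2`, and `B ≥ C₁ N' / (2 s' l l')`;
`(s' + a') l ^ 2 ≤ C₃ N'` as `l ^ 3 ≤ C₄ N'`. -/
def CWTH_stmt : Prop := ∀ A : Circ, ∃ N : Net,
    (∀ w y : List Bool, (∃ p r, N.AcceptsAt w y p r) → ∃ r, A.AcceptsAt w y r) ∧
    ∀ E : Decomp, ∃ E' : Decomp, ∀ (c : ℕ) (C : ℝ), ∃ C' : ℝ, ∀ w y : List Bool,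
      Pool.Agent.Helper65.HCS.Within A E c C w y → N.Within E' c C' w y

/-! ### Cellular automata -/

/-- ALIN. All functions are computed in linear space. `2 ^ (|p| / D) ≤ 2 ^ |p|` (`LS.pow_of_le`), `tab` with the
constant number `D` of digits (`LS.tab`, or a finite sum), `sc A (A.init a b)` by cases on the nine pairs
`a`, `b` (`WLS.letter`, `PLS.eq`, `WLS.ite`, `WLS.const`), and the last function by a list of all
`g : (Fin D → Fin 3) → A.State` (a finite type): equality with the constant word `cw A g` is `PLS.weq`. If two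
`g` have the same word then they are equal (`sd_inj`; `sc A` is injective; `dl D` is onto:
`i = tab 3 D (fun j => δ j)`). -/
def ALIN_stmt : Prop := ∀ {D : ℕ} (A : CA D), (∃ N : Net, IsCA A N) ∧
    ∀ g g' : (Fin D → Fin 3) → A.State, cw A g = cw A g' → g = g'

/-- AVAL (may assume the last part of ALIN). The contents of the cells, by induction on `t`. The word
`p = 0 … 0` has the length `D b`, so `|p| / D = b`; `nm b v` has this length (`tab_lt`, `length_pad`), and the
digit `j` of its value is `v j mod 2 ^ b` (`dig_tab`, `bval_pad`). Step `0`: `2 bval (nm b v) < 2 ^ b` if and only if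
the digits `j ≥ 1` are `0` and the digit `0` is smaller than `2 ^ b / 2`, which means `v j = 0` for `j ≠ 0` and
`0 ≤ v 0` (as `2 |v j| < 2 ^ b`), and then `bval (nm b v) = v 0`. Step: the `i`-th neighbour of `nm b v` is
`nm b (v + dl D i - 1)` for `i < 3 ^ D` (`(v j mod q + δ + q - 1) mod q = (v j + δ - 1) mod q`), its content is known by
induction, so the last part of the view is `cw A g` with `g δ = config t (v + δ - 1)` (`Net.view` by
induction on the number of contents; `dl D i j = dig 3 i j`). -/
def AVAL_stmt : Prop := ∀ (D : ℕ) [NeZero D] (A : CA D) (N : Net), IsCA A N →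
    (∀ g g' : (Fin D → Fin 3) → A.State, cw A g = cw A g' → g = g') →
    ∀ (w y : List Bool) (b t : ℕ) (v : Fin D → ℤ), 2 * (t + 1) < 2 ^ b →
    (∀ j, 2 * (|v j| + t) < 2 ^ b) →
    N.val w y (List.replicate (D * b) false) (t + 1) (nm b v) = sc A (A.config w y t v)

/-- ACONE. Cones of cellular automata: by induction on `k`, the cone of depth `k` is contained in the
image of the set of all `e : Fin D → ℤ` with `|e j| ≤ k` under
`e ↦ pad (D b) (tab (2 ^ b) D fun j => ((dig (2 ^ b) (bval z) j + e j) mod 2 ^ b)).bits`, which has at most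
`(2 k + 1) ^ D` elements (`Set.ncard_image_le`, `Fintype.piFinset`, `Int.card_Icc`). For `k = 0`, `z` is the
image of `0` (`eq_of_bval`, a number smaller than `2 ^ (D b)` is the `tab` of its digits). -/
def ACONE_stmt : Prop := ∀ (D : ℕ) [NeZero D] (A : CA D) (N : Net), IsCA A N →
    ∀ (n b k t : ℕ) (z : List Bool), z.length = D * b →
    (N.cone n (List.replicate (D * b) false) k t z).ncard ≤ (2 * k + 1) ^ D

/-- AWTH (may assume the statements above). Soundness: if `N.AcceptsAt w y p τ` then `τ = t + 1` and the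
network is alive in the step `t`, so `p = 0 … 0` of length `D b`, `p = nm b 0`, and by AVAL its content is
`sc A (config t 0)`, so the first letter is `decide (… ∈ accept)`. Second part: `b = (2 (t + 1)).size`, so
`2 (t + 1) < 2 ^ b ≤ 4 (t + 1)`, `p = 0 … 0` of length `D b`, the time `r = x = t + 1`, `s` the greatest length of
`sc A q` (all contents are empty or such words), `a = D b + b`, `B = max 1 ⌊(N' / (l l')) ^ (1 / D)⌋`,
`V = (2 B + 1) ^ D`, `N' = n + 1`. The bounds: `V ≤ (3 B) ^ D ≤ 3 ^ D max (1, N' / (l l'))` and `l l' ≤ C₁ N'`;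
`B ≥ (N' / (l l')) ^ (1 / D) / 2`, so `(t + 1) l l' ≤ C' N' B` follows from
`t ≤ C N' ^ (1 + 1 / D) / l ^ 3` and `(l l') ^ (1 + 1 / D) ≤ (l l') ^ 2 ≤ 4 l ^ 3` and `l l' ≤ C₁ N'`; `b ≤ C₂ l` since
`t ≤ C N' ^ 2`, and `l ^ 3 ≤ C₃ N'`. -/
def AWTH_stmt : Prop := ∀ (D : ℕ) [NeZero D] (A : CA D), ∃ N : Net,
    (∀ w y : List Bool, (∃ p r, N.AcceptsAt w y p r) → ∃ t, A.config w y t 0 ∈ A.accept) ∧
    ∀ C : ℝ, ∃ C' : ℝ, ∀ (E : Decomp) (c : ℕ) (w y : List Bool),
      (∃ t : ℕ, (t : ℝ) ≤ C * ((w.length : ℝ) + 1) ^ (1 + 1 / (D : ℝ)) /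
        ((Nat.log 2 w.length : ℝ) + 1) ^ 3 ∧ A.config w y t 0 ∈ A.accept) → N.Within E c C' w y

end Pool.Agent.Helper65.NW
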