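import Pool.Agent.Helper87.NW.TREE
import Pool.Agent.Helper13.NW.LSV
import Pool.Agent.Helper80.NW.INP
import Pool.Agent.Helper80.NW.WIN
import Pool.Agent.Helper80.NW.CODE
import Pool.Agent.Helper80.NW.CHK
import Pool.Agent.Helper7.NW.STEP
import Pool.Agent.Helper35.NW.LSP
import Pool.Agent.Helper61.NW.LSW
import Pool.Agent.Helper49.NW.LSK
import Pool.Agent.Helper12.NW.PAR
import Pool.Agent.Helper57.NW.FIN
import Pool.Agent.Helper65.NW.Goals2
import Pool.Agent.Helper31.Gen5.Hard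

/-!
# Networks of processors: the theorem
-/

namespace Pool.Agent.Helper65.NW

open Pool.Agent.Helper65.LinSpace Pool.Agent.Helper78.Mpc Pool.Agent.Helper28.Ram
open Pool.Agent.Helper81.Gen4 (Q q_lin)
open Pool.Agent.Helper31.Gen5 (Hard q_hard)
open Pool.Agent.Helper81.Sus2 (Decomp)

theorem fin_all : FIN_stmt :=
  Pool.Agent.Helper57.NW.fin
    (Pool.Agent.Helper80.NW.win Pool.Agent.Helper80.NW.inp Pool.Agent.Helper7.NW.step)
    Pool.Agent.Helper80.NW.code (Pool.Agent.Helper80.NW.chk Pool.Agent.Helper87.NW.tree)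
    Pool.Agent.Helper12.NW.par

theorem lsk_all : LSK_stmt :=
  Pool.Agent.Helper49.NW.lsk Pool.Agent.Helper35.NW.lsp
    (Pool.Agent.Helper61.NW.lsw Pool.Agent.Helper35.NW.lsp) Pool.Agent.Helper13.NW.lsv

/-- A decompressor. -/
def triv : Decomp where
  addr := fun _ => []
  next := fun _ => []
  addr_lin := LC.of_wls (WLS.const [])
  next_lin := LC.of_wls (WLS.const [])

/-- Hardness for networks implies hardness for circuits and for cellular automata, if they can be
embedded. -/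
theorem networks_of (hC : CWTH_stmt) (hA : AWTH_stmt) (c : ℕ) (hc : 0 < c) :
    (∀ (A : Net) (E : Decomp) (L : Set (List Bool)) (C : ℝ),
      (∀ w, Q (c * w.length) (fun v => ∃ p r, A.AcceptsAt w v p r) → w ∈ L) →
      (∀ w ∈ L, Q (c * w.length) (A.Within E c C w)) → DLINSPACE L) ∧
    ∃ L : Set (List Bool), DLINSPACE L ∧
      (∀ (A : Net) (E : Decomp) (C : ℝ),
        Hard L c (fun w α => Q (c * w.length) fun v => ∃ p r, A.AcceptsAt w (α ++ v) p r)
          (fun w α => Q (c * w.length) fun v => A.Within E c C w (α ++ v))) ∧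
      (∀ (A : Pool.Agent.Helper65.HC.Circ) (E : Decomp) (C : ℝ),
        Hard L c (fun w α => Q (c * w.length) fun v => ∃ r, A.AcceptsAt w (α ++ v) r)
          (fun w α => Q (c * w.length) fun v =>
            Pool.Agent.Helper65.HCS.Within A E c C w (α ++ v))) ∧
      ∀ (D : ℕ) [NeZero D] (A : CA D) (C : ℝ),
        Hard L c (fun w α => Q (c * w.length) fun v => ∃ t, A.config w (α ++ v) t 0 ∈ A.accept)
          (fun w α => Q (c * w.length) fun v => ∃ t : ℕ,
            (t : ℝ) ≤ C * ((w.length : ℝ) + 1) ^ (1 + 1 / (D : ℝ)) /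
              ((Nat.log 2 w.length : ℝ) + 1) ^ 3 ∧ A.config w (α ++ v) t 0 ∈ A.accept) := by
  have hgood : ∀ (A : Net) (E : Decomp) (C : ℝ), _ := fun A E C => fin_all c A E C
  have hls := lsk_all c
  refine ⟨fun A E L C h1 h2 => q_lin (accF c) NF hls.1 hls.2 c L
    (fun w y => ∃ p r, A.AcceptsAt w y p r) (A.Within E c C) (hgood A E C) h1 h2, ?_⟩
  obtain ⟨L, h1, h2⟩ := q_hard (accF c) NF hls.1 hls.2 c c hc
  have h3 : ∀ (A : Net) (E : Decomp) (C : ℝ),
      Hard L c (fun w α => Q (c * w.length) fun v => ∃ p r, A.AcceptsAt w (α ++ v) p r)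
        (fun w α => Q (c * w.length) fun v => A.Within E c C w (α ++ v)) := fun A E C =>
    h2 (fun w y => ∃ p r, A.AcceptsAt w y p r) (A.Within E c C) (hgood A E C)
  refine ⟨L, h1, h3, fun A E C => ?_, fun D _ A C => ?_⟩
  · obtain ⟨N, hN, h4⟩ := hC A
    obtain ⟨E', h5⟩ := h4 E
    obtain ⟨C', h6⟩ := h5 c C
    exact (h3 N E' C').mono
      (fun w α => Pool.Agent.Helper81.Gen4.Q_mono fun x u y _ _ _ h => hN w _ h)
      (fun w α => Pool.Agent.Helper81.Gen4.Q_mono fun x u y _ _ _ h => h6 w _ h)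
  · obtain ⟨N, hN, h4⟩ := hA D A
    obtain ⟨C', h5⟩ := h4 C
    exact (h3 N triv C').mono
      (fun w α => Pool.Agent.Helper81.Gen4.Q_mono fun x u y _ _ _ h => hN w _ h)
      (fun w α => Pool.Agent.Helper81.Gen4.Q_mono fun x u y _ _ _ h => h5 triv c w _ h)

end Pool.Agent.Helper65.NW
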