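import Pool.Agent.Helper65.NW.Final
import Pool.Agent.Helper36.NW.CLIN
import Pool.Agent.Helper30.NW.CVAL
import Pool.Agent.Helper41.NW.CWTH
import Pool.Agent.Helper35.NW.CCONE
import Pool.Agent.Helper35.NW.CSHORT
import Pool.Agent.Helper82.NW.ALIN
import Pool.Agent.Helper8.NW.AVAL
import Pool.Agent.Helper33.NW.ACONE
import Pool.Agent.Helper88.NW.AWTH

/-!
# Networks of processors, circuits and cellular automata: the theorem
-/

namespace Pool.Agent.Helper65.NW

open Pool.Agent.Helper65.LinSpace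
open Pool.Agent.Helper81.Gen4 (Q)
open Pool.Agent.Helper31.Gen5 (Hard)
open Pool.Agent.Helper81.Sus2 (Decomp)

theorem cwth_all : CWTH_stmt :=
  Pool.Agent.Helper41.NW.cwth Pool.Agent.Helper36.NW.clin Pool.Agent.Helper30.NW.cval
    Pool.Agent.Helper35.NW.ccone (Pool.Agent.Helper35.NW.cshort Pool.Agent.Helper30.NW.cval)

theorem awth_all : AWTH_stmt :=
  Pool.Agent.Helper88.NW.awth Pool.Agent.Helper82.NW.alin Pool.Agent.Helper8.NW.aval
    Pool.Agent.Helper33.NW.acone

theorem networks (c : ℕ) (hc : 0 < c) :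
    (∀ (A : Net) (E : Decomp) (L : Set (List Bool)) (C : ℝ),
      (∀ w, Q (c * w.length) (fun v => ∃ p r, A.AcceptsAt w v p r) → w ∈ L) →
      (∀ w ∈ L, Q (c * w.length) (A.Within E c C w)) → DLINSPACE L) ∧
    ∃ L : Set (List Bool), DLINSPACE L ∧
      (∀ (A : Net) (E : Decomp) (C : ℝ),
        Hard L c (fun w α => Q (c * w.length) fun v => ∃ p r, A.AcceptsAt w (α ++ v) p r)
          (fun w α => Q (c * w.length) fun v => A.Within E c C w (α ++ v))) ∧
      (∀ (A : Pool.Agent.Helper65.HC.Circ) (E : Decomp) (C : ℝ),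
        Hard L c (fun w α => Q (c * w.length) fun v => ∃ r, A.AcceptsAt w (α ++ v) r)
          (fun w α => Q (c * w.length) fun v =>
            Pool.Agent.Helper65.HCS.Within A E c C w (α ++ v))) ∧
      ∀ (D : ℕ) [NeZero D] (A : CA D) (C : ℝ),
        Hard L c (fun w α => Q (c * w.length) fun v => ∃ t, A.config w (α ++ v) t 0 ∈ A.accept)
          (fun w α => Q (c * w.length) fun v => ∃ t : ℕ,
            (t : ℝ) ≤ C * ((w.length : ℝ) + 1) ^ (1 + 1 / (D : ℝ)) /
              ((Nat.log 2 w.length : ℝ) + 1) ^ 3 ∧ A.config w (α ++ v) t 0 ∈ A.accept) :=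
  networks_of cwth_all awth_all c hc

end Pool.Agent.Helper65.NW
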