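import Pool.Agent.Helper65.NW.Defs
import Pool.Agent.Helper65.HCS.Num

/-!
# Networks of processors: networks on numbers, and the simulation

A node of the tree is a pair `(t, z)` of a time and (the number of) a cell, coded as `t * Wd + z`. Its
value is the content of the cell `z` at the time `t`. With `k = min B t`, its children are the nodes
`(t - k, u)`, where `u` is one of the at most `V` cells in the cone of `z` of depth `k` (in increasing
order). From the contents of these cells one computes the contents of the cells in the cones of the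
depths `k - 1, …, 0`, one after the other.
-/

namespace Pool.Agent.Helper65.NW

open Pool.Agent.Helper65.LinSpace Pool.Agent.Helper78.Mpc Pool.Agent.Helper28.Ram Finset
open Pool.Agent.Helper31.SusD (itr)

/-- A network on numbers, and the parameters of the simulation. -/
structure Mach where
  /-- contents are smaller than `2 ^ σ` -/
  σ : ℕ
  /-- the bound for the number of the cells in a cone -/
  V : ℕ
  /-- the depth of the cones which are used -/
  B : ℕ
  /-- the height of the tree -/
  K : ℕ
  /-- the number of cells which are read by a cell -/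
  dg : ℕ
  /-- names of cells are smaller than `Wd` -/
  Wd : ℕ
  /-- the name of the `i`-th cell which is read by the cell `z` in the step `t` -/
  inp : ℕ → ℕ → ℕ → ℕ
  /-- the new content of the cell `z` after the step `t`, `X` being the code of the contents which are
  read -/
  upd : ℕ → ℕ → ℕ → ℕ
  /-- the contents at the start -/
  ini : ℕ → ℕ

/-- The conditions for a network on numbers. The content `0` means failure. -/
structure Mach.Ok (m : Mach) : Prop where
  hW : 0 < m.Wd
  hinp : ∀ t z i, m.inp t z i < m.Wd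
  hupd : ∀ t z X, m.upd t z X < 2 ^ m.σ
  hini : ∀ z, m.ini z < 2 ^ m.σ
  hzero : ∀ t z X, (∃ i < m.dg, dig (2 ^ m.σ) X i = 0) → m.upd t z X = 0

namespace Mach

variable (m : Mach)

/-- The content of the cell `z` at the time `t`. -/
def cont : ℕ → ℕ → ℕ
  | 0, z => m.ini z
  | t + 1, z => m.upd t z (tab (2 ^ m.σ) m.dg fun i => cont t (m.inp t z i))

/-- The cell reached from the cell `z` at the time `t` after `j` steps back in time, if the digits of
`π` tell which way is taken. -/
def walk (t z π j : ℕ) : ℕ := nrec z (fun i u => m.inp (t - 1 - i) u (dig m.dg π i)) j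

/-- `1` if `u` is in the cone of depth `k` of the cell `z` at the time `t`. -/
def mem (t k z u : ℕ) : ℕ := lt01 0 (∑ π ∈ range (m.dg ^ k), eq01 (m.walk t z π k) u)

/-- The number of the elements of this cone which are smaller than `u`. -/
def cnt (t k z u : ℕ) : ℕ := ∑ v ∈ range u, m.mem t k z v

/-- The `i`-th element of this cone. -/
def sel (t k z i : ℕ) : ℕ :=
  ∑ u ∈ range m.Wd, m.mem t k z u * (eq01 (m.cnt t k z u) i * u)

/-- The table of the contents of the cells in the cone of depth `k - e` of the cell `z` at the time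
`t`, where `k = min B t`, computed from the table `a` for the cone of depth `k`. -/
def tbl (t z a e : ℕ) : ℕ :=
  nrec a (fun e A => tab (2 ^ m.σ) m.V fun i =>
    m.upd (t - (min m.B t - e)) (m.sel t (min m.B t - (e + 1)) z i)
      (tab (2 ^ m.σ) m.dg fun l => dig (2 ^ m.σ) A (m.cnt t (min m.B t - e) z
        (m.inp (t - (min m.B t - e)) (m.sel t (min m.B t - (e + 1)) z i) l)))) e

/-- `1` if the cones of depth at most `min B t` of the cell `z` at the time `t` have at most `V`
elements. -/
def small (t z : ℕ) : ℕ := eq01 (∑ k ∈ range (min m.B t + 1), lt01 m.V (m.cnt t k z m.Wd)) 0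

/-- The operation of the node `u`; `a` codes the values of the children. -/
def nF (u a : ℕ) : ℕ :=
  m.small (u / m.Wd) (u % m.Wd) *
    dig (2 ^ m.σ) (m.tbl (u / m.Wd) (u % m.Wd) a (min m.B (u / m.Wd))) 0

/-- The value of a leaf. -/
def leaf (u : ℕ) : ℕ := ifz (u / m.Wd) (m.ini (u % m.Wd)) 0

/-- The children of the node `u`. -/
def ch (u i : ℕ) : ℕ :=
  (u / m.Wd - m.B) * m.Wd + m.sel (u / m.Wd) (min m.B (u / m.Wd)) (u % m.Wd) i

/-- The result of the simulation for the content of the cell `z` at the time `t`. -/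
def sim (t z : ℕ) : ℕ := gval m.V m.σ m.nF m.leaf m.ch m.K (t * m.Wd + z)

end Mach

/-- A family of networks whose parameters and functions are computed in linear space. -/
structure LSM {α : Type} [Ctx α] (m : α → Mach) (C : α → ℕ) : Prop where
  σ : LS (fun z => (m z).σ)
  V : LS (fun z => (m z).V)
  B : LS (fun z => (m z).B)
  K : LS (fun z => (m z).K)
  dg : LS (fun z => (m z).dg)
  Wd : LS (fun z => (m z).Wd)
  inp : LS (fun z : α × ℕ × ℕ × ℕ => (m z.1).inp z.2.1 z.2.2.1 z.2.2.2)
  upd : LS (fun z : α × ℕ × ℕ × ℕ => (m z.1).upd z.2.1 z.2.2.1 z.2.2.2)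
  ini : LS (fun z : α × ℕ => (m z.1).ini z.2)
  bd : LS C
  ok : ∀ z, (m z).Ok
  hC1 : ∀ z, 2 ^ ((m z).σ * (m z).V) ≤ C z
  hC2 : ∀ z, (m z).dg ^ (m z).B ≤ C z
  hC3 : ∀ z, 2 ^ ((m z).σ * (m z).dg) ≤ C z

/-! ### The networks on numbers of the networks on words

The configuration at the time `t < 2 ^ Z` with the description `D` has the number
`1 + t + 2 ^ Z * num D`; the number `0` stands for failure, the number `1` for the start. -/

/-- The codes of the functions of a network and a decompressor, the input, and the bounds. -/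
structure Prm where
  eN : ℕ
  eA : ℕ
  eX : ℕ
  eD : ℕ
  eE : ℕ
  dg : ℕ
  Λ : ℕ
  β : ℕ
  M : ℕ
  x : ℕ
  y : ℕ
  /-- the length of contents -/
  S : ℕ
  /-- the length of names, addresses and states of the decompressor; times are smaller than `2 ^ Z` -/
  Z : ℕ
  /-- the length of descriptions -/
  z : ℕ
  V : ℕ
  B : ℕ
  K : ℕ

/-- The value `bval` of the word with the number `v`. -/
def bvalN (v : ℕ) : ℕ := v - 2 ^ Nat.log 2 v

/-- The number of the word (of length at most `1`) which consists of the letter number `j` of the word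
with the number `x`. -/
def ltN (x j : ℕ) : ℕ := ifz (letN x j) 1 (1 + letN x j)

namespace Prm

variable (P : Prm)

/-- The parameters of the decompressor. -/
def dc : Pool.Agent.Helper81.Sus2.Prm where
  eA := 0
  eN := 0
  eW := 0
  eK := 0
  eG := 0
  eR := 0
  eD := P.eD
  eX := P.eE
  ini := 0
  B0 := 0
  st := 0
  Λ := P.Λ
  β := P.β
  B := P.M
  x := P.x
  y := P.y
  S := 0
  Z := P.Z
  u := 0
  V := 0
  z := 0

/-- The header. -/
def hdN (t p z : ℕ) : ℕ :=
  catN (sdN (bitsN (Nat.log 2 P.x))) (catN (sdN (bitsN t)) (catN (sdN p) (sdN z)))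

/-- The number of names. -/
def wd (p : ℕ) : ℕ := 2 * 2 ^ Nat.log 2 p

/-- The value of the function `nb`. -/
def nbN (p t z i : ℕ) : ℕ := fnN P.eN P.Z P.Λ P.β P.M (catN (P.hdN t p z) (bitsN i))

/-- The name of the `i`-th cell which is read by the cell `z` in the step `t`. -/
def inpN (p t z i : ℕ) : ℕ :=
  ifz (lt01 0 (P.nbN p t z i) * eq01 (Nat.log 2 (P.nbN p t z i)) (Nat.log 2 p)) z
    (P.nbN p t z i) % wd p

/-- What the cell `z` knows after it has read `i` contents, which are coded by `X`. -/
def viewN (p t z X i : ℕ) : ℕ :=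
  nrec (P.hdN t p z) (fun i u => catN u (sdN (dig (2 ^ (P.S + 1)) X i))) i

/-- The address which is computed from `u`. -/
def adrN (u : ℕ) : ℕ := fnN P.eA P.Z P.Λ P.β P.M u

/-- The new content of a cell which knows `u`. -/
def nxtN (u : ℕ) : ℕ :=
  capN P.S (ifz (P.adrN u) 0 (fnN P.eX P.S P.Λ P.β P.M
    (catN (sdN (ltN P.x (bvalN (P.adrN u)))) (catN (sdN (ltN P.y (bvalN (P.adrN u)))) u))))

/-- The time of the configuration `c`. -/
def ct (c : ℕ) : ℕ := (c - 1) % 2 ^ P.Z

/-- The description of the configuration `c`. -/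
def cD (c : ℕ) : ℕ := (c - 1) / 2 ^ P.Z

/-- The number of configurations. -/
def cz : ℕ := 2 ^ P.Z * 2 ^ (P.z + 1) + 1

/-- What the decompressor says on the cell `z` of the network `p`, for the configuration `c`. -/
def say (p c z : ℕ) : ℕ := P.dc.lk (P.cD c) (P.hdN (P.ct c) p z)

/-- The content of the cell `z` in the configuration `c` of the network `p`. -/
def pre (p c z : ℕ) : ℕ := ifz (P.ct c) 1 (capN P.S (P.say p c z))

/-- The network `p`, from the configuration `c` on. -/
def win (p c : ℕ) : Mach where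
  σ := P.S + 1
  V := P.V
  B := P.B
  K := P.K
  dg := P.dg
  Wd := wd p
  inp t z i := P.inpN p (P.ct c + t) z i
  upd t z X := P.nxtN (P.viewN p (P.ct c + t) z X P.dg)
  ini z := P.pre p c z

/-- The length of a window. -/
def N : ℕ := P.K * P.B

/-- `1` if the configuration `d` is wrong for the cell `z`, `τ` steps after the configuration `c`. -/
def bad (p c τ d z : ℕ) : ℕ :=
  1 - lt01 0 ((P.win p c).sim τ z) * eq01 ((P.win p c).sim τ z) (P.say p d z)

/-- `1` if the configuration `d` describes the network `p` after `τ` steps from the configuration `c`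
on. -/
def chk (p c τ d : ℕ) : ℕ :=
  lt01 0 c * (lt01 0 d * (lt01 0 τ * (eq01 (P.ct d) (P.ct c + τ) *
    eq01 (∑ i ∈ range (2 ^ Nat.log 2 p), P.bad p c τ d (2 ^ Nat.log 2 p + i)) 0)))

/-- `1` if the network `p` accepts at the time `r`, `τ` steps after the configuration `c`. -/
def ac (p r c τ : ℕ) : ℕ :=
  lt01 0 c * (eq01 (P.ct c + τ) r * accN ((P.win p c).sim τ p))

/-- A number which is not `0` if the network `p` is found to accept at the time `r`. -/
def acc (p r : ℕ) : ℕ :=
  ∑ j ∈ range P.cz, ∑ τ ∈ range P.N, P.ac p r (itr (P.chk p) P.N P.cz j) τ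

end Prm

/-! ### The parameters

The bounds `s`, `a`, `V`, `B` are the digits `0`, `1`, `2`, `3` of `T`, in base `n + 2`. -/

/-- The bound `s`. -/
def sT (n T : ℕ) : ℕ := min (dig (n + 2) T 0) (min (RT.qT n - 1) (Pool.Agent.Helper28.Long.ZL n))

/-- The bound `a`. -/
def aT (n T : ℕ) : ℕ := min (dig (n + 2) T 1) (Pool.Agent.Helper28.Long.ZL n)

/-- The bound `V`. -/
def vT (n T : ℕ) : ℕ := min (dig (n + 2) T 2) (RT.qT n / (sT n T + 1))

/-- The bound `B`. -/
def bT (n T : ℕ) : ℕ := min (dig (n + 2) T 3) (vT n T)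

/-- The parameters for the input `x`, `y` and the bounds coded by `T`. -/
def prm (c e x y T : ℕ) : Prm where
  eN := (Nat.unpair (Nat.unpair (Nat.unpair e).2).1).1
  eA := (Nat.unpair (Nat.unpair (Nat.unpair e).2).1).2
  eX := (Nat.unpair (Nat.unpair (Nat.unpair e).2).2).1
  eD := (Nat.unpair (Nat.unpair (Nat.unpair (Nat.unpair e).2).2).2).1
  eE := (Nat.unpair (Nat.unpair (Nat.unpair (Nat.unpair e).2).2).2).2
  dg := min (Nat.unpair e).1 (ll (ll (Nat.log 2 x)))
  Λ := LW (Nat.log 2 x)
  β := 2 ^ (2 * ll (Nat.log 2 x))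
  M := CR x
  x := x
  y := y
  S := sT (Nat.log 2 x) T
  Z := aT (Nat.log 2 x) T
  z := c * Nat.log 2 x
  V := vT (Nat.log 2 x) T
  B := bT (Nat.log 2 x) T
  K := RT.qT (Nat.log 2 x)

/-- A number which is not `0` if some network accepts. -/
def accF (c e x y T : ℕ) : ℕ :=
  ∑ p ∈ range (2 ^ ((prm c e x y T).Z + 1)), ∑ r ∈ range (2 ^ (prm c e x y T).Z),
    lt01 0 p * (prm c e x y T).acc p r

/-- The number of codes of bounds. -/
def NF (x : ℕ) : ℕ := (Nat.log 2 x + 2) ^ 4

end Pool.Agent.Helper65.NW
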